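import Mathlib

/-!
# Weil–Deligne representations of a local field and local Euler factors: definitions
-/

set_option autoImplicit false

open Polynomial

namespace Pool.Agent.Y116.WD

/-- The Weil group of a non-archimedean local field: a topological group `W` with the valuation
`v : W → ℤ` (the geometric Frobenius has valuation one), whose kernel, the inertia group, is open
and compact; a geometric Frobenius `φ`; the number `q` of elements of the residue field. -/
structure WeilGroup (W : Type) [Group W] [TopologicalSpace W] where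
  v : W →* Multiplicative ℤ
  inertia_open : IsOpen (v.ker : Set W)
  inertia_compact : IsCompact (v.ker : Set W)
  φ : W
  v_φ : v φ = Multiplicative.ofAdd 1
  q : ℕ
  q_pos : 0 < q

variable {W : Type} [Group W] [TopologicalSpace W]

/-- A Weil–Deligne representation `(r, N)` on the vector space `V` over `K`: `r` is a
representation of `W` which is trivial on an open subgroup of inertia, `N` is nilpotent and
`r(w) N = q^(-v(w)) N r(w)`. -/
structure WDRep (G : WeilGroup W) (K : Type) [Field K] (V : Type) [AddCommGroup V]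
    [Module K V] where
  r : W →* Module.End K V
  N : Module.End K V
  nilp : IsNilpotent N
  comm : ∀ w, r w * N = ((G.q : K) ^ (-(Multiplicative.toAdd (G.v w)))) • (N * r w)
  smooth : ∃ J : Subgroup W, IsOpen (J : Set W) ∧ J ≤ G.v.ker ∧ ∀ g ∈ J, r g = 1

section General

variable {K : Type} [Field K] {V : Type} [AddCommGroup V] [Module K V]

/-- `V^I`: the invariants of the normal subgroup `I` -/
def invI (I : Subgroup W) (ρ : W →* Module.End K V) : Submodule K V where
  carrier := {x | ∀ g ∈ I, ρ g x = x}
  add_mem' := by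
    intro a b ha hb g hg
    rw [map_add, ha g hg, hb g hg]
  zero_mem' := by
    intro g _
    rw [map_zero]
  smul_mem' := by
    intro c x hx g hg
    rw [map_smul, hx g hg]

omit [TopologicalSpace W] in
theorem invI_maps (I : Subgroup W) [hI : I.Normal] (ρ : W →* Module.End K V) (w : W) :
    ∀ x ∈ invI I ρ, ρ w x ∈ invI I ρ := by
  intro x hx g hg
  have h1 : g * w = w * (w⁻¹ * g * w) := by group
  have h2 : w⁻¹ * g * w ∈ I := by
    have := hI.conj_mem g hg w⁻¹
    rwa [inv_inv] at this
  have h3 : ρ g (ρ w x) = ρ (g * w) x := by rw [map_mul]; rfl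
  rw [h3, h1, map_mul]
  change ρ w (ρ (w⁻¹ * g * w) x) = _
  rw [hx _ h2]

/-- the representation of `W` on the invariants of `I` -/
def actI (I : Subgroup W) [I.Normal] (ρ : W →* Module.End K V) :
    W →* Module.End K (invI I ρ) where
  toFun w := (ρ w).restrict (invI_maps I ρ w)
  map_one' := by
    refine LinearMap.ext fun x => Subtype.ext ?_
    change ρ 1 (x : V) = x
    rw [map_one]
    rfl
  map_mul' a b := by
    refine LinearMap.ext fun x => Subtype.ext ?_
    change ρ (a * b) (x : V) = ρ a (ρ b x)
    rw [map_mul]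
    rfl

end General

namespace WDRep

variable {G : WeilGroup W} {K : Type} [Field K] {V : Type} [AddCommGroup V] [Module K V]
  (R : WDRep G K V)

/-- the kernel of `N ^ m` -/
def kerPow (m : ℕ) : Submodule K V := LinearMap.ker (R.N ^ m)

theorem N_r [CharZero K] (w : W) :
    R.N * R.r w = ((G.q : K) ^ (Multiplicative.toAdd (G.v w))) • (R.r w * R.N) := by
  have hq : (G.q : K) ≠ 0 := by exact_mod_cast G.q_pos.ne'
  rw [R.comm, smul_smul, ← zpow_add₀ hq, add_neg_cancel, zpow_zero, one_smul]

theorem pow_r [CharZero K] (m : ℕ) (w : W) :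
    R.N ^ m * R.r w = ((G.q : K) ^ (Multiplicative.toAdd (G.v w))) ^ m • (R.r w * R.N ^ m) := by
  induction m with
  | zero => simp
  | succ m ih =>
    rw [pow_succ, mul_assoc, R.N_r, mul_smul_comm, ← mul_assoc, ih, smul_mul_assoc, smul_smul,
      mul_assoc, ← pow_succ, ← pow_succ']

theorem kerPow_maps [CharZero K] (m : ℕ) (w : W) : ∀ x ∈ R.kerPow m, R.r w x ∈ R.kerPow m := by
  intro x hx
  have h1 : (R.N ^ m * R.r w) x = 0 := by
    rw [R.pow_r, LinearMap.smul_apply, Module.End.mul_apply, LinearMap.mem_ker.1 hx, map_zero,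
      smul_zero]
  exact LinearMap.mem_ker.2 h1

/-- the representation of `W` on the kernel of `N ^ m` -/
def onKer [CharZero K] (m : ℕ) : W →* Module.End K (R.kerPow m) where
  toFun w := (R.r w).restrict (R.kerPow_maps m w)
  map_one' := by
    refine LinearMap.ext fun x => Subtype.ext ?_
    change R.r 1 (x : V) = x
    rw [map_one]
    rfl
  map_mul' a b := by
    refine LinearMap.ext fun x => Subtype.ext ?_
    change R.r (a * b) (x : V) = R.r a (R.r b x)
    rw [map_mul]
    rfl

/-- the representation of `W` on `(ker N)^I`, with `(ker N)^I` seen inside `ker N` -/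
def onInv [CharZero K] : W →* Module.End K (invI G.v.ker (R.onKer 1)) :=
  actI G.v.ker (R.onKer 1)

/-- the space `(ker N)^I` (for the `ℓ`-adic representation attached to `(r, N)` this is the space
of invariants of inertia) -/
def invSp : Submodule K V := LinearMap.ker R.N ⊓ invI G.v.ker R.r

theorem invSp_maps [CharZero K] (w : W) : ∀ x ∈ R.invSp, R.r w x ∈ R.invSp := by
  rintro x ⟨hx, hx'⟩
  refine ⟨?_, invI_maps G.v.ker R.r w x hx'⟩
  have h1 : x ∈ R.kerPow 1 := by
    change (R.N ^ 1) x = 0
    rw [pow_one]
    exact hx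
  have h2 := R.kerPow_maps 1 w x h1
  change (R.N ^ 1) (R.r w x) = 0 at h2
  rwa [pow_one] at h2

/-- the Frobenius on `(ker N)^I` -/
def frobInv [CharZero K] : Module.End K R.invSp := (R.r G.φ).restrict (R.invSp_maps G.φ)

/-- the component `F ↦ F (j + 1)` of the shift -/
def shiftAt (K : Type) [Field K] (V : Type) [AddCommGroup V] [Module K V] (m : ℕ)
    (j : Fin (m + 1)) : (Fin (m + 1) → V) →ₗ[K] V :=
  if h : (j : ℕ) + 1 < m + 1 then LinearMap.proj ⟨j + 1, h⟩ else 0

/-- the shift `(F_0, ..., F_m) ↦ (F_1, ..., F_m, 0)` -/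
def shift (K : Type) [Field K] (V : Type) [AddCommGroup V] [Module K V] (m : ℕ) :
    Module.End K (Fin (m + 1) → V) := LinearMap.pi (shiftAt K V m)

omit [TopologicalSpace W] in
theorem shift_apply (m : ℕ) (F : Fin (m + 1) → V) (j : Fin (m + 1)) :
    shift K V m F j = if h : (j : ℕ) + 1 < m + 1 then F ⟨j + 1, h⟩ else 0 := by
  change shiftAt K V m j F = _
  unfold shiftAt
  by_cases h : (j : ℕ) + 1 < m + 1
  · rw [dif_pos h, dif_pos h]; rfl
  · rw [dif_neg h, dif_neg h]; rfl

omit [TopologicalSpace W] in
theorem shift_pow (m k : ℕ) (F : Fin (m + 1) → V) (j : Fin (m + 1)) (h : m + 1 ≤ (j : ℕ) + k) :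
    (shift K V m ^ k) F j = 0 := by
  induction k generalizing j with
  | zero => exact absurd j.2 (by omega)
  | succ k ih =>
    rw [pow_succ']
    change shift K V m ((shift K V m ^ k) F) j = 0
    rw [shift_apply]
    by_cases h' : (j : ℕ) + 1 < m + 1
    · rw [dif_pos h']
      exact ih _ (by simp only; omega)
    · rw [dif_neg h']

/-- the endomorphism `(F_j) ↦ (c ^ j f F_j)` -/
def scale (m : ℕ) (c : K) (f : Module.End K V) : Module.End K (Fin (m + 1) → V) :=
  LinearMap.pi fun j => (c ^ (j : ℕ) • f) ∘ₗ LinearMap.proj j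

omit [TopologicalSpace W] in
theorem scale_apply (m : ℕ) (c : K) (f : Module.End K V) (F : Fin (m + 1) → V)
    (j : Fin (m + 1)) : scale m c f F j = c ^ (j : ℕ) • f (F j) := rfl

/-- `q ^ v(w)` -/
def absv (G : WeilGroup W) (K : Type) [Field K] (w : W) : K :=
  (G.q : K) ^ (Multiplicative.toAdd (G.v w))

theorem absv_one : absv G K 1 = 1 := by
  unfold absv
  rw [map_one G.v, toAdd_one, zpow_zero]

theorem absv_mul [CharZero K] (a b : W) : absv G K (a * b) = absv G K a * absv G K b := by
  have hq : (G.q : K) ≠ 0 := by exact_mod_cast G.q_pos.ne'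
  unfold absv
  rw [map_mul G.v, toAdd_mul, zpow_add₀ hq]

theorem special_one (m : ℕ) : scale m (absv G K 1) (R.r 1) = 1 := by
  refine LinearMap.ext fun F => funext fun j => ?_
  rw [scale_apply, absv_one, map_one R.r, one_pow, one_smul]
  rfl

theorem special_mul [CharZero K] (m : ℕ) (a b : W) : scale m (absv G K (a * b)) (R.r (a * b)) =
    scale m (absv G K a) (R.r a) * scale m (absv G K b) (R.r b) := by
  refine LinearMap.ext fun F => funext fun j => ?_
  change scale m (absv G K (a * b)) (R.r (a * b)) F j =
    scale m (absv G K a) (R.r a) (scale m (absv G K b) (R.r b) F) j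
  rw [scale_apply, scale_apply, scale_apply, absv_mul, map_mul R.r, mul_pow, map_smul, smul_smul]
  rfl

/-- the action of `W` on the tensor product with the special representation -/
def specialR [CharZero K] (m : ℕ) : W →* Module.End K (Fin (m + 1) → V) :=
  ⟨⟨fun w => scale m (absv G K w) (R.r w), R.special_one m⟩, R.special_mul m⟩

/-- the monodromy operator on the tensor product with the special representation -/
def specialN (m : ℕ) : Module.End K (Fin (m + 1) → V) := R.N.compLeft (Fin (m + 1)) + shift K V m

theorem special_nilp (m : ℕ) : IsNilpotent (R.specialN m) := by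
  obtain ⟨n, hn⟩ := R.nilp
  have hc : Commute (R.N.compLeft (Fin (m + 1))) (shift K V m) := by
    refine LinearMap.ext fun F => funext fun j => ?_
    change R.N (shift K V m F j) = shift K V m (fun i => R.N (F i)) j
    rw [shift_apply, shift_apply]
    by_cases h : (j : ℕ) + 1 < m + 1
    · rw [dif_pos h, dif_pos h]
    · rw [dif_neg h, dif_neg h, map_zero]
  refine hc.isNilpotent_add ⟨n, ?_⟩ ⟨m + 1, ?_⟩
  · have h1 : ∀ k : ℕ, (R.N.compLeft (Fin (m + 1))) ^ k = (R.N ^ k).compLeft (Fin (m + 1)) := by
      intro k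
      induction k with
      | zero => rfl
      | succ k ih => rw [pow_succ, ih, pow_succ]; rfl
    rw [h1, hn]
    rfl
  · refine LinearMap.ext fun F => funext fun j => ?_
    exact shift_pow m (m + 1) F j (by omega)

theorem special_comm [CharZero K] (m : ℕ) (w : W) :
    R.specialR m w * R.specialN m =
      ((G.q : K) ^ (-(Multiplicative.toAdd (G.v w)))) • (R.specialN m * R.specialR m w) := by
  have hq : (G.q : K) ≠ 0 := by exact_mod_cast G.q_pos.ne'
  refine LinearMap.ext fun F => funext fun j => ?_
  change ((G.q : K) ^ (Multiplicative.toAdd (G.v w))) ^ (j : ℕ) • R.r w (R.N (F j) +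
      shift K V m F j) = ((G.q : K) ^ (-(Multiplicative.toAdd (G.v w)))) •
      (R.N (((G.q : K) ^ (Multiplicative.toAdd (G.v w))) ^ (j : ℕ) • R.r w (F j)) +
        shift K V m (R.specialR m w F) j)
  have h1 : R.r w (R.N (F j)) = ((G.q : K) ^ (-(Multiplicative.toAdd (G.v w)))) •
      (R.N (R.r w (F j))) := by
    have := LinearMap.congr_fun (R.comm w) (F j)
    exact this
  rw [map_add, h1, smul_add, smul_add, map_smul, smul_comm, shift_apply, shift_apply]
  congr 1
  by_cases h : (j : ℕ) + 1 < m + 1
  · rw [dif_pos h, dif_pos h]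
    change _ = ((G.q : K) ^ (-(Multiplicative.toAdd (G.v w)))) •
      (((G.q : K) ^ (Multiplicative.toAdd (G.v w))) ^ ((j : ℕ) + 1) • R.r w (F ⟨j + 1, h⟩))
    rw [smul_smul, pow_succ', ← mul_assoc, ← zpow_add₀ hq,
      neg_add_cancel, zpow_zero, one_mul]
  · rw [dif_neg h, dif_neg h, map_zero, smul_zero, smul_zero]

theorem special_smooth [CharZero K] (m : ℕ) :
    ∃ J : Subgroup W, IsOpen (J : Set W) ∧ J ≤ G.v.ker ∧ ∀ g ∈ J, R.specialR m g = 1 := by
  obtain ⟨J, h1, h2, h3⟩ := R.smooth
  refine ⟨J, h1, h2, fun g hg => ?_⟩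
  refine LinearMap.ext fun F => funext fun j => ?_
  change ((G.q : K) ^ (Multiplicative.toAdd (G.v g))) ^ (j : ℕ) • R.r g (F j) = F j
  rw [h3 g hg, MonoidHom.mem_ker.1 (h2 hg), toAdd_one, zpow_zero, one_pow, one_smul]
  rfl

/-- The tensor product of `(r, N)` with the special representation `Sp(m + 1)` of dimension
`m + 1`, with basis `e_0, ..., e_m`, `w e_j = q^(j v(w)) e_j`, `N e_j = e_(j-1)`, `N e_0 = 0`;
the function `F` is the element `∑ F_j ⊗ e_j`. -/
def special [CharZero K] (m : ℕ) : WDRep G K (Fin (m + 1) → V) where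
  r := R.specialR m
  N := R.specialN m
  nilp := R.special_nilp m
  comm := R.special_comm m
  smooth := R.special_smooth m

/-- the endomorphism `F ↦ (x ↦ f (F (w⁻¹ x)))` of the functions on `W / H` -/
def transl (H : Subgroup W) (w : W) (f : Module.End K V) : Module.End K ((W ⧸ H) → V) :=
  LinearMap.pi fun x => f ∘ₗ LinearMap.proj (w⁻¹ • x)

theorem artin_one (H : Subgroup W) : transl H 1 (R.r 1) = 1 := by
  refine LinearMap.ext fun F => funext fun x => ?_
  change R.r 1 (F ((1 : W)⁻¹ • x)) = F x
  rw [map_one, inv_one, one_smul]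
  rfl

theorem artin_mul (H : Subgroup W) (a b : W) :
    transl H (a * b) (R.r (a * b)) = transl H a (R.r a) * transl H b (R.r b) := by
  refine LinearMap.ext fun F => funext fun x => ?_
  change R.r (a * b) (F ((a * b)⁻¹ • x)) = R.r a (R.r b (F (b⁻¹ • a⁻¹ • x)))
  rw [map_mul, mul_inv_rev, mul_smul]
  rfl

/-- the action of `W` on the tensor product with the functions on `W / H` -/
def artinR (H : Subgroup W) : W →* Module.End K ((W ⧸ H) → V) :=
  ⟨⟨fun w => transl H w (R.r w), R.artin_one H⟩, R.artin_mul H⟩

/-- the monodromy operator on the tensor product with the functions on `W / H` -/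
def artinN (H : Subgroup W) : Module.End K ((W ⧸ H) → V) := R.N.compLeft (W ⧸ H)

theorem artin_nilp (H : Subgroup W) : IsNilpotent (R.artinN H) := by
  obtain ⟨n, hn⟩ := R.nilp
  have h1 : ∀ k : ℕ, (R.N.compLeft (W ⧸ H)) ^ k = (R.N ^ k).compLeft (W ⧸ H) := by
    intro k
    induction k with
    | zero => rfl
    | succ k ih => rw [pow_succ, ih, pow_succ]; rfl
  refine ⟨n, ?_⟩
  unfold artinN
  rw [h1, hn]
  rfl

theorem artin_comm (H : Subgroup W) (w : W) : R.artinR H w * R.artinN H =
    ((G.q : K) ^ (-(Multiplicative.toAdd (G.v w)))) • (R.artinN H * R.artinR H w) := by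
  refine LinearMap.ext fun F => funext fun x => ?_
  exact LinearMap.congr_fun (R.comm w) (F (w⁻¹ • x))

theorem artin_smooth [ContinuousMul W] (H : Subgroup W) (hH : IsOpen (H : Set W))
    [Finite (W ⧸ H)] : ∃ J : Subgroup W, IsOpen (J : Set W) ∧ J ≤ G.v.ker ∧
      ∀ g ∈ J, R.artinR H g = 1 := by
  obtain ⟨J, h1, h2, h3⟩ := R.smooth
  refine ⟨J ⊓ (MulAction.toPermHom W (W ⧸ H)).ker, ?_, inf_le_left.trans h2, fun g hg => ?_⟩
  · have h4 : (((MulAction.toPermHom W (W ⧸ H)).ker : Subgroup W) : Set W) =
        ⋂ x : W ⧸ H, {g | g • x = x} := by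
      ext g
      rw [SetLike.mem_coe, MonoidHom.mem_ker, Set.mem_iInter]
      constructor
      · intro h x
        exact Equiv.congr_fun h x
      · intro h
        exact Equiv.ext h
    rw [Subgroup.coe_inf, h4]
    refine h1.inter (isOpen_iInter_of_finite fun x => ?_)
    induction x using QuotientGroup.induction_on with
    | H k =>
      have h5 : {g : W | g • (QuotientGroup.mk k : W ⧸ H) = QuotientGroup.mk k} =
          (fun g => k⁻¹ * g * k) ⁻¹' (H : Set W) := by
        ext g
        rw [Set.mem_ofPred_eq, Set.mem_preimage, SetLike.mem_coe, MulAction.Quotient.smul_mk,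
          eq_comm, QuotientGroup.eq, smul_eq_mul, mul_assoc]
      rw [h5]
      exact hH.preimage ((continuous_const.mul continuous_id).mul continuous_const)
  · refine LinearMap.ext fun F => funext fun x => ?_
    have h4 : g⁻¹ • x = x := by
      rw [inv_smul_eq_iff]
      exact (Equiv.congr_fun (MonoidHom.mem_ker.1 hg.2) x).symm
    change R.r g (F (g⁻¹ • x)) = F x
    rw [h4, h3 g hg.1]
    rfl

/-- The tensor product of `(r, N)` with the permutation representation on the functions on
`W / H`, for an open subgroup `H` of finite index: the `V`-valued functions on `W / H`, with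
`(w F)(x) = w (F (w⁻¹ x))`. -/
def artin [ContinuousMul W] (H : Subgroup W) (hH : IsOpen (H : Set W)) [Finite (W ⧸ H)] :
    WDRep G K ((W ⧸ H) → V) where
  r := R.artinR H
  N := R.artinN H
  nilp := R.artin_nilp H
  comm := R.artin_comm H
  smooth := R.artin_smooth H hH

end WDRep

/-- the polynomial `det (1 - T f)` -/
noncomputable def revPoly {K : Type} [Field K] {V : Type} [AddCommGroup V] [Module K V]
    [FiniteDimensional K V] (f : Module.End K V) : K[X] := f.charpoly.reverse

namespace WDRep

variable {G : WeilGroup W} {K : Type} [Field K] [CharZero K] {V : Type} [AddCommGroup V]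
  [Module K V] [FiniteDimensional K V] (R : WDRep G K V)

/-- the Euler factor `det (1 - T φ | (ker N)^I)` -/
noncomputable def eulerPoly : K[X] := revPoly R.frobInv

/-- the polynomial `det (1 - T w | ker N^m)` -/
noncomputable def kerPoly (m : ℕ) (w : W) : K[X] :=
  revPoly ((R.r w).restrict (R.kerPow_maps m w))

end WDRep

/-- A compatible family candidate: for each `ℓ` a Weil–Deligne representation on a
finite-dimensional vector space over `K ℓ`. -/
structure Family (G : WeilGroup W) (Λ : Type) (K : Λ → Type) [∀ l, Field (K l)] where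
  V : Λ → Type
  [acg : ∀ l, AddCommGroup (V l)]
  [mod : ∀ l, Module (K l) (V l)]
  [fin : ∀ l, FiniteDimensional (K l) (V l)]
  rep : ∀ l, WDRep G (K l) (V l)

attribute [instance] Family.acg Family.mod Family.fin

namespace Family

variable {G : WeilGroup W} {Λ : Type} {K : Λ → Type} [∀ l, Field (K l)] [∀ l, CharZero (K l)]
  (A : Family G Λ K)

/-- The Euler factor `det (1 - T φ | (ker N)^I)` has rational coefficients and does not depend
on `ℓ`. -/
def EulerIndep : Prop :=
  ∃ P : ℚ[X], ∀ l, (A.rep l).eulerPoly = P.map (algebraMap ℚ (K l))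

/-- The Weil–Deligne representations (up to Frobenius semisimplification) are defined over `ℚ`
and do not depend on `ℓ`: for all `m` and all `w` in `W` the polynomial
`det (1 - T w | ker N^(m+1))` has rational coefficients and does not depend on `ℓ`. -/
def WDIndep : Prop :=
  ∀ (m : ℕ) (w : W), ∃ P : ℚ[X], ∀ l,
    (A.rep l).kerPoly (m + 1) w = P.map (algebraMap ℚ (K l))

/-- the tensor product with the special representation of dimension `m + 1` -/
def special (m : ℕ) : Family G Λ K where
  V l := Fin (m + 1) → A.V l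
  rep l := (A.rep l).special m

/-- the tensor product with the functions on `W / H` -/
def artin [ContinuousMul W] (H : Subgroup W) (hH : IsOpen (H : Set W)) [Finite (W ⧸ H)] :
    Family G Λ K where
  V l := (W ⧸ H) → A.V l
  rep l := (A.rep l).artin H hH

end Family

end Pool.Agent.Y116.WD
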