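import Pool.Agent.Y116.WD.Tr

/-!
# The kernel of the monodromy operator on twists, and counting of fixed points
-/

set_option autoImplicit false

open Polynomial

namespace Pool.Agent.Y116.WD

variable {W : Type} [Group W] [TopologicalSpace W]

namespace WDRep

variable {G : WeilGroup W} {K : Type} [Field K] [CharZero K] {V : Type} [AddCommGroup V]
  [Module K V] (R : WDRep G K V)

theorem special_ker {m : ℕ} {F : Fin (m + 1) → V} (hF : F ∈ (R.special m).kerPow 1)
    (j : Fin (m + 1)) : R.N (F j) + (if h : (j : ℕ) + 1 < m + 1 then F ⟨j + 1, h⟩ else 0) = 0 := by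
  have h1 := LinearMap.mem_ker.1 hF
  rw [pow_one] at h1
  have h2 : R.N (F j) + shift K V m F j = 0 := congrFun h1 j
  rwa [shift_apply] at h2

theorem special_pow {m : ℕ} {F : Fin (m + 1) → V} (hF : F ∈ (R.special m).kerPow 1)
    (k : ℕ) (hk : k < m + 1) : F ⟨k, hk⟩ = ((-R.N) ^ k) (F 0) := by
  induction k with
  | zero => rfl
  | succ k ih =>
    have h1 := R.special_ker hF ⟨k, by omega⟩
    rw [dif_pos (show ((⟨k, by omega⟩ : Fin (m + 1)) : ℕ) + 1 < m + 1 from hk), ih (by omega)] at h1
    rw [pow_succ']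
    change _ = (-R.N) (((-R.N) ^ k) (F 0))
    rw [LinearMap.neg_apply]
    exact eq_neg_of_add_eq_zero_right h1

/-- `ker N` on the twist by the special representation is `ker N^(m+1)` -/
noncomputable def specialEquiv (m : ℕ) : (R.special m).kerPow 1 ≃ₗ[K] R.kerPow (m + 1) where
  toFun F := ⟨F.1 0, by
    have h1 := R.special_ker F.2 ⟨m, by omega⟩
    rw [dif_neg (show ¬ ((⟨m, by omega⟩ : Fin (m + 1)) : ℕ) + 1 < m + 1 by simp), add_zero,
      R.special_pow F.2 m (by omega)] at h1
    have h2 : R.N ^ (m + 1) = (-1 : Module.End K V) ^ m * (R.N * (-R.N) ^ m) := by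
      rw [neg_pow R.N m, ← mul_assoc R.N, (Commute.neg_one_right R.N).pow_right m |>.eq, mul_assoc,
        ← pow_succ', ← mul_assoc, ← pow_add, Even.neg_one_pow ⟨m, rfl⟩, one_mul]
    change (R.N ^ (m + 1)) (F.1 0) = 0
    rw [h2]
    change ((-1 : Module.End K V) ^ m) (R.N (((-R.N) ^ m) (F.1 0))) = 0
    rw [h1, map_zero]⟩
  map_add' F F' := rfl
  map_smul' c F := rfl
  invFun x := ⟨fun j => ((-R.N) ^ (j : ℕ)) x.1, by
    change ((R.special m).N ^ 1) _ = 0
    rw [pow_one]
    funext j
    change R.N (((-R.N) ^ (j : ℕ)) x.1) +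
      shift K V m (fun i : Fin (m + 1) => ((-R.N) ^ (i : ℕ)) x.1) j = 0
    rw [shift_apply]
    by_cases h : (j : ℕ) + 1 < m + 1
    · rw [dif_pos h]
      change _ + ((-R.N) ^ ((j : ℕ) + 1)) x.1 = 0
      rw [pow_succ']
      change _ + (-R.N) (((-R.N) ^ (j : ℕ)) x.1) = 0
      rw [LinearMap.neg_apply, add_neg_cancel]
    · have hj : (j : ℕ) = m := by have := j.2; omega
      rw [dif_neg h, add_zero, hj]
      have h3 : R.N * (-R.N) ^ m = (-1 : Module.End K V) ^ m * R.N ^ (m + 1) := by
        rw [neg_pow R.N m, ← mul_assoc R.N, (Commute.neg_one_right R.N).pow_right m |>.eq,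
          mul_assoc, ← pow_succ']
      change (R.N * (-R.N) ^ m) x.1 = 0
      rw [h3]
      change ((-1 : Module.End K V) ^ m) ((R.N ^ (m + 1)) x.1) = 0
      rw [LinearMap.mem_ker.1 x.2, map_zero]⟩
  left_inv F := by
    refine Subtype.ext (funext fun j => ?_)
    exact (R.special_pow F.2 j j.2).symm
  right_inv x := rfl

theorem specialEquiv_apply (m : ℕ) (g : W) (F : (R.special m).kerPow 1) :
    R.specialEquiv m ((R.special m).onKer 1 g F) = R.onKer (m + 1) g (R.specialEquiv m F) := by
  refine Subtype.ext ?_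
  change ((G.q : K) ^ (Multiplicative.toAdd (G.v g))) ^ 0 • R.r g (F.1 0) = R.r g (F.1 0)
  rw [pow_zero, one_smul]

/-- `ker N^k` on the functions on `W / H` -/
def artinEquiv [ContinuousMul W] (H : Subgroup W) (hH : IsOpen (H : Set W)) [Finite (W ⧸ H)]
    (k : ℕ) : (R.artin H hH).kerPow k ≃ₗ[K] ((W ⧸ H) → R.kerPow k) :=
  have hpow : ∀ k : ℕ, (R.artin H hH).N ^ k = (R.N ^ k).compLeft (W ⧸ H) := by
    intro k
    induction k with
    | zero => rfl
    | succ k ih => rw [pow_succ, ih, pow_succ]; rfl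
  { toFun := fun F x => ⟨F.1 x, by
      have h1 := LinearMap.mem_ker.1 F.2
      rw [hpow] at h1
      exact LinearMap.mem_ker.2 (congrFun h1 x)⟩
    map_add' := fun F F' => rfl
    map_smul' := fun c F => rfl
    invFun := fun F => ⟨fun x => (F x).1, by
      refine LinearMap.mem_ker.2 ?_
      rw [hpow]
      funext x
      exact LinearMap.mem_ker.1 (F x).2⟩
    left_inv := fun F => rfl
    right_inv := fun F => rfl }

theorem artinEquiv_apply [ContinuousMul W] (H : Subgroup W) (hH : IsOpen (H : Set W))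
    [Finite (W ⧸ H)] (k : ℕ) (g : W) (F : (R.artin H hH).kerPow k) (x : W ⧸ H) :
    R.artinEquiv H hH k ((R.artin H hH).onKer k g F) x =
      R.onKer k g (R.artinEquiv H hH k F (g⁻¹ • x)) := rfl

/-- the two descriptions of `(ker N)^I` agree -/
def invEquiv : R.invSp ≃ₗ[K] invI G.v.ker (R.onKer 1) where
  toFun x := ⟨⟨x.1, by
    change (R.N ^ 1) x.1 = 0
    rw [pow_one]
    exact x.2.1⟩, fun g hg => Subtype.ext (x.2.2 g hg)⟩
  map_add' _ _ := rfl
  map_smul' _ _ := rfl
  invFun y := ⟨y.1.1, by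
    have h1 : (R.N ^ 1) y.1.1 = 0 := y.1.2
    rw [pow_one] at h1
    exact ⟨h1, fun g hg => congrArg Subtype.val (y.2 g hg)⟩⟩
  left_inv _ := rfl
  right_inv _ := rfl

theorem trace_frobInv (n : ℕ) :
    LinearMap.trace K _ (R.frobInv ^ n) = LinearMap.trace K _ (R.onInv G.φ ^ n) := by
  rw [← LinearMap.trace_conj' (R.frobInv ^ n) R.invEquiv]
  congr 1
  induction n with
  | zero =>
    refine LinearMap.ext fun y => ?_
    rw [LinearEquiv.conj_apply_apply, pow_zero, pow_zero]
    exact R.invEquiv.apply_symm_apply y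
  | succ n ih =>
    refine LinearMap.ext fun y => ?_
    have h1 := LinearMap.congr_fun ih y
    rw [LinearEquiv.conj_apply_apply] at h1 ⊢
    rw [pow_succ', pow_succ']
    change R.invEquiv (R.frobInv ((R.frobInv ^ n) (R.invEquiv.symm y))) =
      R.onInv G.φ ((R.onInv G.φ ^ n) y)
    rw [← h1]
    rfl

open Classical in
/-- the trace on the kernel of `N` of both twists -/
theorem trace_twist [ContinuousMul W] [FiniteDimensional K V] (m : ℕ) (H : Subgroup W)
    (hH : IsOpen (H : Set W)) [Fintype (W ⧸ H)] (g : W) :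
    LinearMap.trace K _ (((R.special m).artin H hH).onKer 1 g) =
      ∑ x : W ⧸ H, if g • x = x then LinearMap.trace K _ (R.onKer (m + 1) g) else 0 := by
  have h1 : LinearMap.trace K _ ((R.special m).onKer 1 g) =
      LinearMap.trace K _ (R.onKer (m + 1) g) := by
    rw [← LinearMap.trace_conj' ((R.special m).onKer 1 g) (R.specialEquiv m)]
    congr 1
    refine LinearMap.ext fun y => ?_
    rw [LinearEquiv.conj_apply_apply, specialEquiv_apply, LinearEquiv.apply_symm_apply]
  rw [← h1, ← LinearMap.trace_conj' (((R.special m).artin H hH).onKer 1 g)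
    ((R.special m).artinEquiv H hH 1),
    trace_fun (fun x : W ⧸ H => g⁻¹ • x) ((R.special m).onKer 1 g)]
  · refine Finset.sum_congr rfl fun x _ => ?_
    have h2 : g⁻¹ • x = x ↔ g • x = x := by
      rw [inv_smul_eq_iff, eq_comm]
    simp only [h2]
  · intro F x
    rw [LinearEquiv.conj_apply_apply, artinEquiv_apply, LinearEquiv.apply_symm_apply]

end WDRep

section Count

omit [TopologicalSpace W] in
open Classical in
/-- The number of fixed points of Frobenius elements on `W / H`, for `H` generated by `w`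
and by the normal subgroup `J` of `I`, weighted by a class function. -/
theorem count {K : Type} [Field K] (v : W →* Multiplicative ℤ) (J : Subgroup W) [hJn : J.Normal]
    (hJ : J ≤ v.ker) [Fintype (Quo v.ker J)] (w φ : W)
    (hw : 1 < v w) (hφ : v φ = v w) [Fintype (W ⧸ (Subgroup.zpowers w ⊔ J))] (t : W → K)
    (ht1 : ∀ g, ∀ j ∈ J, t (g * j) = t g) (ht2 : ∀ g k, t (k * g * k⁻¹) = t g) :
    ∑ c : Quo v.ker J, ∑ x : W ⧸ (Subgroup.zpowers w ⊔ J),
      (if (φ * ((Quotient.out c : v.ker) : W)) • x = x then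
        t (φ * ((Quotient.out c : v.ker) : W)) else 0) =
      (Fintype.card (W ⧸ (Subgroup.zpowers w ⊔ J)) : K) * t w := by
  rw [Finset.sum_comm, ← nsmul_eq_mul, ← Finset.card_univ, ← Finset.sum_const]
  refine Finset.sum_congr rfl fun x _ => ?_
  induction x using QuotientGroup.induction_on with
  | H k =>
    have hg0 : φ⁻¹ * (k * w * k⁻¹) ∈ v.ker := by
      rw [MonoidHom.mem_ker, map_mul, map_mul, map_mul, map_inv, map_inv, hφ]
      rw [mul_comm (v k), mul_inv_cancel_right, inv_mul_cancel]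
    rw [Finset.sum_eq_single (QuotientGroup.mk (⟨_, hg0⟩ : v.ker) : Quo v.ker J)]
    · obtain ⟨j, hj, hj'⟩ := out_eq (J := J) (⟨_, hg0⟩ : v.ker)
      rw [hj']
      have h1 : φ * ((⟨φ⁻¹ * (k * w * k⁻¹), hg0⟩ : v.ker) * j : W) = k * w * k⁻¹ * j := by
        change φ * (φ⁻¹ * (k * w * k⁻¹) * j) = _
        group
      rw [h1, if_pos, ht1 _ j hj, ht2]
      rw [MulAction.Quotient.smul_mk, eq_comm, QuotientGroup.eq, smul_eq_mul]
      have h2 : k⁻¹ * (k * w * k⁻¹ * j * k) = w * (k⁻¹ * j * k) := by group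
      rw [h2]
      refine Subgroup.mul_mem _ (Subgroup.mem_sup_left (Subgroup.mem_zpowers w))
        (Subgroup.mem_sup_right ?_)
      have := hJn.conj_mem j hj k⁻¹
      rwa [inv_inv] at this
    · intro c _ hc
      rw [if_neg]
      intro h
      apply hc
      rw [MulAction.Quotient.smul_mk, eq_comm, QuotientGroup.eq, smul_eq_mul,
        Subgroup.mem_sup_of_normal_right] at h
      obtain ⟨a, ha, b, hb, hab⟩ := h
      obtain ⟨n, rfl⟩ := Subgroup.mem_zpowers_iff.1 ha
      have h1 : v (w ^ n) = v w := by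
        have h2 := congrArg v hab
        rw [map_mul, MonoidHom.mem_ker.1 (hJ hb), mul_one] at h2
        rw [h2, map_mul, map_mul, map_mul, map_inv, hφ,
          MonoidHom.mem_ker.1 (Quotient.out c : v.ker).2, mul_one, mul_comm, mul_inv_cancel_right]
      have h2 : n = 1 := by
        rw [map_zpow] at h1
        have h3 : n * Multiplicative.toAdd (v w) = Multiplicative.toAdd (v w) := by
          have := congrArg Multiplicative.toAdd h1
          rwa [toAdd_zpow, smul_eq_mul] at this
        have h4 : 0 < Multiplicative.toAdd (v w) := by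
          exact hw
        have h5 : (n - 1) * Multiplicative.toAdd (v w) = 0 := by linarith
        rcases mul_eq_zero.1 h5 with h6 | h6
        · omega
        · omega
      rw [h2, zpow_one] at hab
      rw [← QuotientGroup.out_eq' c, QuotientGroup.eq, Subgroup.mem_subgroupOf]
      have h3 : k * b⁻¹ * k⁻¹ ∈ J := hJn.conj_mem _ (J.inv_mem hb) k
      have h4 : (((Quotient.out c : v.ker)⁻¹ * ⟨φ⁻¹ * (k * w * k⁻¹), hg0⟩ : v.ker) : W) =
          k * b⁻¹ * k⁻¹ := by
        change ((Quotient.out c : v.ker) : W)⁻¹ * (φ⁻¹ * (k * w * k⁻¹)) = _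
        have h5 : w = k⁻¹ * (φ * ((Quotient.out c : v.ker) : W) * k) * b⁻¹ := by
          rw [← hab]; group
        rw [h5]
        group
      rw [h4]
      exact h3
    · intro h
      exact absurd (Finset.mem_univ _) h

end Count

end Pool.Agent.Y116.WD
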