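import Pool.Agent.Y116.WD.Ker

/-!
# Euler factors of all twists determine the Weil–Deligne representations
-/

set_option autoImplicit false

open Polynomial

namespace Pool.Agent.Y116.WD

variable {W : Type} [Group W] [TopologicalSpace W] [IsTopologicalGroup W]

section Topology

variable (G : WeilGroup W)

theorem finite_quo (J : Subgroup W) (hJo : IsOpen (J : Set W)) : Finite (Quo G.v.ker J) := by
  have : CompactSpace G.v.ker := isCompact_iff_compactSpace.1 G.inertia_compact
  exact Subgroup.quotient_finite_of_isOpen (J.subgroupOf G.v.ker)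
    (hJo.preimage continuous_subtype_val)

/-- `W / H` is finite for `H` generated by `J` and `w` -/
theorem finite_H (J : Subgroup W) [hJn : J.Normal] (hJo : IsOpen (J : Set W)) (w : W)
    (hw : 1 < G.v w) : Finite (W ⧸ (Subgroup.zpowers w ⊔ J)) := by
  have := finite_quo G J hJo
  set d : ℤ := Multiplicative.toAdd (G.v w) with hd
  have hd0 : 0 < d := hw
  refine Finite.of_surjective (α := Quo G.v.ker J × Fin d.toNat)
    (fun p => QuotientGroup.mk (((Quotient.out p.1 : G.v.ker) : W) * G.φ ^ (p.2 : ℕ))) ?_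
  intro x
  induction x using QuotientGroup.induction_on with
  | H g =>
    set n : ℤ := Multiplicative.toAdd (G.v g) with hn
    have hr0 : 0 ≤ n % d := Int.emod_nonneg _ hd0.ne'
    have hr1 : n % d < d := Int.emod_lt_of_pos _ hd0
    have hi : g * w ^ (-(n / d)) * (G.φ ^ (n % d).toNat)⁻¹ ∈ G.v.ker := by
      rw [MonoidHom.mem_ker]
      apply Multiplicative.toAdd.injective
      rw [map_mul G.v, map_mul G.v, map_inv G.v, map_zpow, map_pow, toAdd_mul, toAdd_mul, toAdd_inv,
        toAdd_zpow, toAdd_pow, G.v_φ, toAdd_ofAdd, toAdd_one, ← hd, ← hn, smul_eq_mul,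
        nsmul_eq_mul, mul_one, Int.toNat_of_nonneg hr0]
      have := Int.emod_add_mul_ediv n d
      linarith [mul_comm d (n / d)]
    obtain ⟨j, hj, hj'⟩ := out_eq (J := J) (⟨_, hi⟩ : G.v.ker)
    refine ⟨(QuotientGroup.mk (⟨_, hi⟩ : G.v.ker), ⟨(n % d).toNat, by omega⟩), ?_⟩
    change (QuotientGroup.mk (_ * G.φ ^ (n % d).toNat) : W ⧸ (Subgroup.zpowers w ⊔ J)) = _
    rw [hj', QuotientGroup.eq]
    set P := G.φ ^ (n % d).toNat
    have h1 : (((⟨g * w ^ (-(n / d)) * P⁻¹, hi⟩ : G.v.ker) : W) * j * P)⁻¹ * g =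
        (P⁻¹ * j⁻¹ * P) * w ^ (n / d) := by
      change (g * w ^ (-(n / d)) * P⁻¹ * j * P)⁻¹ * g = _
      group
    rw [h1]
    refine Subgroup.mul_mem _ (Subgroup.mem_sup_right ?_)
      (Subgroup.mem_sup_left (Subgroup.zpow_mem_zpowers w _))
    have := hJn.conj_mem _ (J.inv_mem hj) P⁻¹
    rwa [inv_inv] at this

end Topology

section Smooth

variable {G : WeilGroup W} {K K' : Type} [Field K] [Field K'] {V V' : Type} [AddCommGroup V]
  [Module K V] [AddCommGroup V'] [Module K' V']

/-- a common open normal subgroup of inertia acting trivially -/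
theorem exists_J (R : WDRep G K V) (R' : WDRep G K' V') :
    ∃ J : Subgroup W, J.Normal ∧ IsOpen (J : Set W) ∧ J ≤ G.v.ker ∧ (∀ g ∈ J, R.r g = 1) ∧
      ∀ g ∈ J, R'.r g = 1 := by
  obtain ⟨J1, h1, h2, h3⟩ := R.smooth
  obtain ⟨J2, k1, k2, k3⟩ := R'.smooth
  have hker : ∀ (J : Subgroup W) (hJ : IsOpen (J : Set W)) {M : Type} [Monoid M] (f : W →* M),
      (∀ g ∈ J, f g = 1) → IsOpen (f.ker : Set W) := by
    intro J hJ M _ f hf
    exact Subgroup.isOpen_mono (H₁ := J) (fun g hg => MonoidHom.mem_ker.2 (hf g hg)) hJ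
  refine ⟨G.v.ker ⊓ (R.r.ker ⊓ R'.r.ker), inferInstance, ?_, inf_le_left, ?_, ?_⟩
  · rw [Subgroup.coe_inf, Subgroup.coe_inf]
    exact G.inertia_open.inter ((hker J1 h1 _ h3).inter (hker J2 k1 _ k3))
  · intro g hg
    exact MonoidHom.mem_ker.1 hg.2.1
  · intro g hg
    exact MonoidHom.mem_ker.1 hg.2.2

omit [IsTopologicalGroup W] in
theorem onKer_one [CharZero K] (R : WDRep G K V) (m : ℕ) {g : W} (hg : R.r g = 1) :
    R.onKer m g = 1 := by
  refine LinearMap.ext fun x => Subtype.ext ?_
  change R.r g (x : V) = x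
  rw [hg]
  rfl

end Smooth

variable {G : WeilGroup W} {Λ : Type} {K : Λ → Type} [∀ l, Field (K l)] [∀ l, CharZero (K l)]

namespace Family

variable (A : Family G Λ K)

/-- the trace of the `(n + 1)`-st power of Frobenius on `(ker N)^I` -/
noncomputable def frobTr (n : ℕ) (l : Λ) : K l :=
  LinearMap.trace (K l) _ ((A.rep l).frobInv ^ (n + 1))

/-- the trace of `w` on `ker N^(m+1)` -/
noncomputable def kerTr (m : ℕ) (w : W) (l : Λ) : K l :=
  LinearMap.trace (K l) _ ((A.rep l).onKer (m + 1) w)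

theorem exists_poly_univ {p : ∀ l, (K l)[X]} :
    (∃ P : ℚ[X], ∀ l, p l = P.map (algebraMap ℚ (K l))) ↔
      ∀ k, RatOn Set.univ (fun l => (p l).coeff k) := by
  constructor
  · rintro ⟨P, hP⟩ k
    refine ⟨P.coeff k, fun l _ => ?_⟩
    change (p l).coeff k = _
    rw [hP l, coeff_map]
  · intro h
    rcases isEmpty_or_nonempty Λ with hΛ | hΛ
    · exact ⟨0, fun l => (hΛ.false l).elim⟩
    · obtain ⟨P, hP⟩ := exists_poly (S := Set.univ) Set.univ_nonempty h
      exact ⟨P, fun l => hP l (Set.mem_univ l)⟩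

omit [IsTopologicalGroup W] in
theorem euler_iff : A.EulerIndep ↔ ∀ n, RatOn Set.univ (A.frobTr n) := by
  unfold EulerIndep
  rw [exists_poly_univ]
  exact rev_iff (fun l => (A.rep l).frobInv)

omit [IsTopologicalGroup W] in
theorem wd_iff : A.WDIndep ↔ ∀ m w, RatOn Set.univ (A.kerTr m w) := by
  unfold WDIndep
  constructor
  · intro h m w
    have h1 := (rev_iff (fun l => (A.rep l).onKer (m + 1) w)).1 (exists_poly_univ.1 (h m w)) 0
    refine h1.congr fun l _ => ?_
    change _ = LinearMap.trace (K l) _ ((A.rep l).onKer (m + 1) w ^ (0 + 1))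
    rw [zero_add, pow_one]
    rfl
  · intro h m w
    rw [exists_poly_univ]
    refine (rev_iff (fun l => (A.rep l).onKer (m + 1) w)).2 fun n => ?_
    refine (h m (w ^ (n + 1))).congr fun l _ => ?_
    change LinearMap.trace (K l) _ ((A.rep l).onKer (m + 1) w ^ (n + 1)) = _
    rw [← map_pow]
    rfl

omit [IsTopologicalGroup W] in
theorem frobTr_eq (n : ℕ) (l : Λ) (J : Subgroup W) [Fintype (Quo G.v.ker J)]
    (hJ : ∀ g ∈ J, (A.rep l).r g = 1) :
    A.frobTr n l = (Fintype.card (Quo G.v.ker J) : K l)⁻¹ *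
      ∑ c : Quo G.v.ker J, A.kerTr 0 (G.φ ^ (n + 1) * ((Quotient.out c : G.v.ker) : W)) l := by
  unfold frobTr kerTr
  rw [(A.rep l).trace_frobInv, ← map_pow]
  exact trace_actI G.v.ker J ((A.rep l).onKer 1) (fun g hg => onKer_one _ _ (hJ g hg)) _

theorem euler_of_wd (h : A.WDIndep) : A.EulerIndep := by
  rw [wd_iff] at h
  rw [euler_iff]
  intro n
  rw [ratOn_univ_iff]
  intro l l'
  obtain ⟨J, hJn, hJo, hJI, hJ, hJ'⟩ := exists_J (A.rep l) (A.rep l')
  have := finite_quo G J hJo
  have : Fintype (Quo G.v.ker J) := Fintype.ofFinite _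
  have h1 : RatOn {l, l'} (fun i => algebraMap ℚ (K i) (Fintype.card (Quo G.v.ker J) : ℚ)⁻¹ *
      ∑ c : Quo G.v.ker J, A.kerTr 0 (G.φ ^ (n + 1) * ((Quotient.out c : G.v.ker) : W)) i) :=
    (ratOn_const _).mul (RatOn.sum _ fun c _ => (h 0 _).mono (Set.subset_univ _))
  refine h1.congr fun i hi => ?_
  rw [map_inv₀, map_natCast]
  rcases hi with rfl | hi
  · exact A.frobTr_eq n i J hJ
  · have hi' : i = l' := hi
    subst hi'
    exact A.frobTr_eq n i J hJ'

open Classical in
theorem twist_kerTr (m : ℕ) (H : Subgroup W) (hH : IsOpen (H : Set W)) [Fintype (W ⧸ H)]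
    (g : W) (l : Λ) : ((A.special m).artin H hH).kerTr 0 g l =
      ∑ x : W ⧸ H, if g • x = x then A.kerTr m g l else 0 :=
  (A.rep l).trace_twist m H hH g

/-- the Euler factors of all twists of `A` -/
def TwistEuler : Prop :=
  ∀ (m : ℕ) (H : Subgroup W) (hH : IsOpen (H : Set W)) (_ : Finite (W ⧸ H)),
    ((A.special m).artin H hH).EulerIndep

theorem twistEuler_of_wd (h : A.WDIndep) : A.TwistEuler := by
  rw [wd_iff] at h
  intro m H hH hfin
  rw [euler_iff]
  intro n
  rw [ratOn_univ_iff]
  intro l l'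
  classical
  set B := (A.special m).artin H hH with hB
  obtain ⟨J, hJn, hJo, hJI, hJ, hJ'⟩ := exists_J (B.rep l) (B.rep l')
  have := finite_quo G J hJo
  have : Fintype (Quo G.v.ker J) := Fintype.ofFinite _
  have : Fintype (W ⧸ H) := Fintype.ofFinite _
  have h1 : RatOn {l, l'} (fun i => algebraMap ℚ (K i) (Fintype.card (Quo G.v.ker J) : ℚ)⁻¹ *
      ∑ c : Quo G.v.ker J, B.kerTr 0 (G.φ ^ (n + 1) * ((Quotient.out c : G.v.ker) : W)) i) := by
    refine (ratOn_const _).mul (RatOn.sum _ fun c _ => ?_)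
    have h2 : RatOn {l, l'} (fun i => ∑ x : W ⧸ H,
        if (G.φ ^ (n + 1) * ((Quotient.out c : G.v.ker) : W)) • x = x then
          A.kerTr m (G.φ ^ (n + 1) * ((Quotient.out c : G.v.ker) : W)) i else 0) := by
      refine RatOn.sum _ fun x _ => ?_
      by_cases hx : (G.φ ^ (n + 1) * ((Quotient.out c : G.v.ker) : W)) • x = x
      · refine ((h m (G.φ ^ (n + 1) * ((Quotient.out c : G.v.ker) : W))).mono
          (Set.subset_univ _)).congr fun i _ => ?_
        exact if_pos hx
      · refine (ratOn_natCast 0).congr fun i _ => ?_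
        rw [Nat.cast_zero]
        exact if_neg hx
    refine h2.congr fun i _ => ?_
    rw [hB]
    convert A.twist_kerTr m H hH _ i
  refine h1.congr fun i hi => ?_
  rw [map_inv₀, map_natCast]
  rcases hi with rfl | hi
  · exact B.frobTr_eq n i J hJ
  · have hi' : i = l' := hi
    subst hi'
    exact B.frobTr_eq n i J hJ'

theorem twist_trivial (m : ℕ) (J : Subgroup W) [hJn : J.Normal] (hJI : J ≤ G.v.ker)
    (H : Subgroup W) (hH : IsOpen (H : Set W)) [Finite (W ⧸ H)] (hJH : J ≤ H) (l : Λ)
    (hJ : ∀ g ∈ J, (A.rep l).r g = 1) :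
    ∀ g ∈ J, (((A.special m).artin H hH).rep l).r g = 1 := by
  intro g hg
  refine LinearMap.ext fun F => funext fun x => ?_
  have h1 : g⁻¹ • x = x := by
    induction x using QuotientGroup.induction_on with
    | H k =>
      rw [MulAction.Quotient.smul_mk, eq_comm, QuotientGroup.eq, smul_eq_mul, ← mul_assoc]
      apply hJH
      have := hJn.conj_mem _ (J.inv_mem hg) k⁻¹
      rwa [inv_inv] at this
  change ((A.rep l).special m).r g (F (g⁻¹ • x)) = F x
  rw [h1]
  funext j
  change ((G.q : K l) ^ (Multiplicative.toAdd (G.v g))) ^ (j : ℕ) • (A.rep l).r g (F x j) = F x j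
  rw [hJ g hg, MonoidHom.mem_ker.1 (hJI hg), toAdd_one, zpow_zero, one_pow, one_smul]
  rfl

/-- the traces of the elements of positive valuation -/
theorem kerTr_pos (h : A.TwistEuler) (m : ℕ) (w : W) (hw : 1 < G.v w) :
    RatOn Set.univ (A.kerTr m w) := by
  classical
  rw [ratOn_univ_iff]
  intro l l'
  obtain ⟨J, hJn, hJo, hJI, hJ, hJ'⟩ := exists_J (A.rep l) (A.rep l')
  have := finite_quo G J hJo
  have : Fintype (Quo G.v.ker J) := Fintype.ofFinite _
  have hfin := finite_H G J hJo w hw
  have : Fintype (W ⧸ (Subgroup.zpowers w ⊔ J)) := Fintype.ofFinite _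
  have hHo : IsOpen ((Subgroup.zpowers w ⊔ J : Subgroup W) : Set W) :=
    Subgroup.isOpen_mono le_sup_right hJo
  have hd0 : 0 < Multiplicative.toAdd (G.v w) := hw
  obtain ⟨n, hn⟩ : ∃ n : ℕ, Multiplicative.toAdd (G.v w) = (n : ℤ) + 1 :=
    ⟨(Multiplicative.toAdd (G.v w) - 1).toNat, by omega⟩
  have hφ : G.v (G.φ ^ (n + 1)) = G.v w := by
    apply Multiplicative.toAdd.injective
    rw [map_pow, toAdd_pow, G.v_φ, toAdd_ofAdd, hn, nsmul_eq_mul, mul_one]
    push_cast
    ring
  set B := (A.special m).artin _ hHo with hB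
  have h1 := ((euler_iff B).1 (h m _ hHo hfin) n).mono (Set.subset_univ ({l, l'} : Set Λ))
  have hcQ : (Fintype.card (Quo G.v.ker J) : ℚ) ≠ 0 := by
    have : Nonempty (Quo G.v.ker J) := ⟨QuotientGroup.mk 1⟩
    exact_mod_cast Fintype.card_ne_zero
  have hcX : (Fintype.card (W ⧸ (Subgroup.zpowers w ⊔ J)) : ℚ) ≠ 0 := by
    have : Nonempty (W ⧸ (Subgroup.zpowers w ⊔ J)) := ⟨QuotientGroup.mk 1⟩
    exact_mod_cast Fintype.card_ne_zero
  have key : ∀ i, (∀ g ∈ J, (A.rep i).r g = 1) → B.frobTr n i =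
      (Fintype.card (Quo G.v.ker J) : K i)⁻¹ *
        ((Fintype.card (W ⧸ (Subgroup.zpowers w ⊔ J)) : K i) * A.kerTr m w i) := by
    intro i hi
    rw [B.frobTr_eq n i J (A.twist_trivial m J hJI _ hHo le_sup_right i hi)]
    congr 1
    have h2 := count G.v J hJI w (G.φ ^ (n + 1)) hw hφ (fun g => A.kerTr m g i)
      (fun g j hj => by
        unfold kerTr
        rw [map_mul, onKer_one _ _ (hi j hj), mul_one])
      (fun g k => by
        unfold kerTr
        have e1 : (A.rep i).onKer (m + 1) (k * g * k⁻¹) = (A.rep i).onKer (m + 1) k *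
            (A.rep i).onKer (m + 1) g * (A.rep i).onKer (m + 1) k⁻¹ := by
          rw [map_mul, map_mul]
        rw [e1, LinearMap.trace_mul_comm, ← mul_assoc, ← map_mul,
          inv_mul_cancel, map_one, one_mul])
    rw [← h2]
    refine Finset.sum_congr rfl fun c _ => ?_
    rw [hB]
    convert A.twist_kerTr m _ hHo _ i
  have h3 : RatOn {l, l'} (fun i => algebraMap ℚ (K i)
      ((Fintype.card (Quo G.v.ker J) : ℚ)⁻¹ *
        (Fintype.card (W ⧸ (Subgroup.zpowers w ⊔ J)) : ℚ)) * A.kerTr m w i) := by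
    refine h1.congr fun i hi => ?_
    rw [map_mul, map_inv₀, map_natCast, map_natCast, mul_assoc]
    rcases hi with rfl | hi
    · exact (key i hJ).symm
    · have hi' : i = l' := hi
      subst hi'
      exact (key i hJ').symm
  exact h3.of_mul (mul_ne_zero (inv_ne_zero hcQ) hcX)

end Family

/-- a consequence of the theorem of Cayley and Hamilton -/
theorem cayley {K : Type} [Field K] {U : Type} [AddCommGroup U] [Module K U]
    [FiniteDimensional K U] (f g : Module.End K U) (hf : IsUnit f) {P : K[X]}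
    (hP : revPoly f = P) :
    P.coeff P.natDegree * LinearMap.trace K U g +
      ∑ i ∈ Finset.range P.natDegree, P.coeff (P.natDegree - (i + 1)) *
        LinearMap.trace K U (f ^ (i + 1) * g) = 0 := by
  have h0 : f.charpoly.coeff 0 ≠ 0 := by
    intro h
    have h1 := LinearMap.det_eq_sign_charpoly_coeff f
    rw [h, mul_zero] at h1
    exact (hf.map (LinearMap.det (M := U))).ne_zero h1
  have hdeg : P.natDegree = f.charpoly.natDegree := by
    rw [← hP]
    unfold revPoly
    rw [reverse_natDegree, natTrailingDegree_eq_zero.2 (Or.inr h0), Nat.sub_zero]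
  have hco : ∀ i ≤ P.natDegree, P.coeff (P.natDegree - i) = f.charpoly.coeff i := by
    intro i hi
    rw [← hP]
    unfold revPoly
    rw [coeff_reverse]
    have h1 : f.charpoly.reverse.natDegree = f.charpoly.natDegree := by
      rw [← hdeg, ← hP]; rfl
    rw [h1, revAt_le (Nat.sub_le _ _)]
    congr 1
    rw [hdeg] at hi
    omega
  have h1 := f.aeval_self_charpoly
  rw [aeval_eq_sum_range, ← hdeg] at h1
  have h2 := congrArg (fun x => LinearMap.trace K U (x * g)) h1
  simp only [Finset.sum_mul, map_sum, zero_mul, map_zero] at h2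
  rw [Finset.sum_range_succ'] at h2
  rw [add_comm]
  refine Eq.trans ?_ h2
  congr 1
  · refine Finset.sum_congr rfl fun i hi => ?_
    rw [Finset.mem_range] at hi
    rw [hco (i + 1) (by omega), smul_mul_assoc, map_smul, smul_eq_mul]
  · have h3 := hco 0 (Nat.zero_le _)
    rw [Nat.sub_zero] at h3
    rw [h3, pow_zero, smul_mul_assoc, one_mul, map_smul, smul_eq_mul]

namespace Family

variable (A : Family G Λ K)

omit [IsTopologicalGroup W] in
theorem kerTr_all (m : ℕ) (h : ∀ w, 1 < G.v w → RatOn Set.univ (A.kerTr m w)) :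
    ∀ w, RatOn Set.univ (A.kerTr m w) := by
  rcases isEmpty_or_nonempty Λ with hΛ | hΛ
  · intro w
    exact ⟨0, fun l => (hΛ.false l).elim⟩
  have hP : ∃ P : ℚ[X], ∀ l ∈ (Set.univ : Set Λ),
      revPoly ((A.rep l).onKer (m + 1) G.φ) = P.map (algebraMap ℚ (K l)) := by
    refine exists_poly Set.univ_nonempty ?_
    refine (rev_iff (fun l => (A.rep l).onKer (m + 1) G.φ)).2 fun n => ?_
    refine (h (G.φ ^ (n + 1)) ?_).congr fun l _ => ?_
    · rw [map_pow, G.v_φ]
      change (0 : ℤ) < (n + 1) • (1 : ℤ)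
      rw [nsmul_eq_mul, mul_one]
      positivity
    · change LinearMap.trace (K l) _ ((A.rep l).onKer (m + 1) G.φ ^ (n + 1)) = _
      rw [← map_pow]
      rfl
  obtain ⟨P, hP⟩ := hP
  have hP0 : P ≠ 0 := by
    rintro rfl
    obtain ⟨l⟩ := hΛ
    have h1 := hP l (Set.mem_univ l)
    have h2 := rev_zero ((A.rep l).onKer (m + 1) G.φ)
    rw [h1, Polynomial.map_zero, coeff_zero] at h2
    exact zero_ne_one h2
  have hmain : ∀ (j : ℕ) (w : W), -(j : ℤ) < Multiplicative.toAdd (G.v w) →
      RatOn Set.univ (A.kerTr m w) := by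
    intro j
    induction j with
    | zero =>
      intro w hw
      refine h w ?_
      change (0 : ℤ) < Multiplicative.toAdd (G.v w)
      simpa using hw
    | succ j ih =>
      intro w hw
      have h1 : RatOn Set.univ (fun l => -(∑ i ∈ Finset.range P.natDegree,
          algebraMap ℚ (K l) (P.coeff (P.natDegree - (i + 1))) *
            A.kerTr m (G.φ ^ (i + 1) * w) l)) := by
        refine RatOn.neg (RatOn.sum _ fun i _ => (ratOn_const _).mul (ih _ ?_))
        rw [map_mul, map_pow, G.v_φ, toAdd_mul, toAdd_pow, toAdd_ofAdd, nsmul_eq_mul, mul_one]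
        push_cast at hw ⊢
        linarith [Int.natCast_nonneg i]
      have h2 : RatOn Set.univ (fun l => algebraMap ℚ (K l) (P.coeff P.natDegree) *
          A.kerTr m w l) := by
        refine h1.congr fun l _ => ?_
        have hu : IsUnit ((A.rep l).onKer (m + 1) G.φ) :=
          (Group.isUnit G.φ).map ((A.rep l).onKer (m + 1))
        have h3 := cayley _ ((A.rep l).onKer (m + 1) w) hu (hP l (Set.mem_univ l))
        rw [natDegree_map_eq_of_injective (algebraMap ℚ (K l)).injective] at h3
        simp only [coeff_map, ← map_pow, ← map_mul] at h3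
        exact eq_neg_of_add_eq_zero_left h3
      exact h2.of_mul (by
        rw [coeff_natDegree]
        exact leadingCoeff_ne_zero.2 hP0)
  intro w
  refine hmain ((Multiplicative.toAdd (G.v w)).natAbs + 1) w ?_
  push_cast
  have := neg_abs_le (Multiplicative.toAdd (G.v w))
  omega

/-- **Theorem.** The Euler factors of all twists of a family by special representations and by
permutation representations are rational and independent of `ℓ` if and only if its Weil–Deligne
representations are. -/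
theorem twistEuler_iff : A.TwistEuler ↔ A.WDIndep := by
  constructor
  · intro h
    rw [wd_iff]
    intro m
    exact A.kerTr_all m (A.kerTr_pos h m)
  · exact A.twistEuler_of_wd

end Family

/-- a class of families which is closed under twists by special representations and by
permutation representations -/
structure Closed (Mot : Family G Λ K → Prop) : Prop where
  special : ∀ A, Mot A → ∀ m, Mot (A.special m)
  artin : ∀ A, Mot A → ∀ (H : Subgroup W) (hH : IsOpen (H : Set W)) (_ : Finite (W ⧸ H)),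
    Mot (A.artin H hH)

theorem class_iff {Mot : Family G Λ K → Prop} (h : Closed Mot) :
    (∀ A, Mot A → A.EulerIndep) ↔ ∀ A, Mot A → A.WDIndep := by
  constructor
  · intro h1 A hA
    rw [← A.twistEuler_iff]
    intro m H hH hfin
    exact h1 _ (h.artin _ (h.special A hA m) H hH hfin)
  · intro h1 A hA
    exact A.euler_of_wd (h1 A hA)

end Pool.Agent.Y116.WD
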