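import Pool.Agent.Y116.WD.Defs
import Pool.Agent.TH658.Eq.Newt

/-!
# Traces and reversed characteristic polynomials
-/

set_option autoImplicit false

open Polynomial

namespace Pool.Agent.Y116.WD

section Rat

variable {Λ : Type} {K : Λ → Type} [∀ l, Field (K l)] [∀ l, CharZero (K l)]

/-- rational and independent of `l`, for `l` in `S` -/
def RatOn (S : Set Λ) (x : ∀ l, K l) : Prop := ∃ q : ℚ, ∀ l ∈ S, x l = algebraMap ℚ (K l) q

variable {S : Set Λ} {x y : ∀ l, K l}

theorem RatOn.mono {S' : Set Λ} (h : S' ⊆ S) (hx : RatOn S x) : RatOn S' x := by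
  obtain ⟨q, hq⟩ := hx
  exact ⟨q, fun l hl => hq l (h hl)⟩

theorem RatOn.congr (hx : RatOn S x) (h : ∀ l ∈ S, y l = x l) : RatOn S y := by
  obtain ⟨q, hq⟩ := hx
  exact ⟨q, fun l hl => (h l hl).trans (hq l hl)⟩

theorem RatOn.add (hx : RatOn S x) (hy : RatOn S y) : RatOn S (fun l => x l + y l) := by
  obtain ⟨q, hq⟩ := hx
  obtain ⟨r, hr⟩ := hy
  exact ⟨q + r, fun l hl => by change x l + y l = _; rw [hq l hl, hr l hl, map_add]⟩

theorem RatOn.mul (hx : RatOn S x) (hy : RatOn S y) : RatOn S (fun l => x l * y l) := by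
  obtain ⟨q, hq⟩ := hx
  obtain ⟨r, hr⟩ := hy
  exact ⟨q * r, fun l hl => by change x l * y l = _; rw [hq l hl, hr l hl, map_mul]⟩

theorem RatOn.neg (hx : RatOn S x) : RatOn S (fun l => - x l) := by
  obtain ⟨q, hq⟩ := hx
  exact ⟨-q, fun l hl => by change - x l = _; rw [hq l hl, map_neg]⟩

theorem ratOn_const (q : ℚ) : RatOn S (fun l => algebraMap ℚ (K l) q) := ⟨q, fun _ _ => rfl⟩

theorem ratOn_natCast (n : ℕ) : RatOn S (fun l => (n : K l)) :=
  ⟨n, fun l _ => (map_natCast (algebraMap ℚ (K l)) n).symm⟩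

theorem RatOn.sum {ι : Type} (s : Finset ι) {z : ι → ∀ l, K l} (h : ∀ i ∈ s, RatOn S (z i)) :
    RatOn S (fun l => ∑ i ∈ s, z i l) := by
  classical
  induction s using Finset.induction_on with
  | empty =>
    exact ⟨0, fun l _ => by
      change ∑ i ∈ ∅, z i l = _
      rw [Finset.sum_empty, map_zero]⟩
  | insert a s ha ih =>
    have h1 := (h a (Finset.mem_insert_self a s)).add
      (ih fun i hi => h i (Finset.mem_insert_of_mem hi))
    exact h1.congr fun l _ => by rw [Finset.sum_insert ha]

theorem ratOn_univ_iff : RatOn Set.univ x ↔ ∀ l l', RatOn {l, l'} x := by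
  constructor
  · intro h l l'
    exact h.mono (Set.subset_univ _)
  · intro h
    rcases isEmpty_or_nonempty Λ with hΛ | ⟨⟨l0⟩⟩
    · exact ⟨0, fun l _ => (hΛ.false l).elim⟩
    · obtain ⟨q, hq⟩ := h l0 l0
      refine ⟨q, fun l _ => ?_⟩
      obtain ⟨r, hr⟩ := h l0 l
      have h1 := hq l0 (by simp)
      have h2 := hr l0 (by simp)
      have h3 : q = r := (algebraMap ℚ (K l0)).injective (h1.symm.trans h2)
      rw [hr l (by simp), h3]

/-- division by a nonzero rational number -/
theorem RatOn.of_mul {q : ℚ} (hq : q ≠ 0)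
    (h : RatOn S (fun l => algebraMap ℚ (K l) q * x l)) : RatOn S x := by
  refine ((ratOn_const (K := K) (S := S) q⁻¹).mul h).congr fun l _ => ?_
  have h1 : algebraMap ℚ (K l) q ≠ 0 := (_root_.map_ne_zero _).2 hq
  rw [map_inv₀, ← mul_assoc, inv_mul_cancel₀ h1, one_mul]

/-- families of polynomials with rational coefficients independent of `l` -/
theorem exists_poly {p : ∀ l, (K l)[X]} (hS : S.Nonempty)
    (h : ∀ k, RatOn S (fun l => (p l).coeff k)) :
    ∃ P : ℚ[X], ∀ l ∈ S, p l = P.map (algebraMap ℚ (K l)) := by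
  choose q hq using h
  obtain ⟨l0, hl0⟩ := hS
  refine ⟨∑ k ∈ Finset.range ((p l0).natDegree + 1), C (q k) * X ^ k, fun l hl => ?_⟩
  refine Polynomial.ext fun k => ?_
  rw [coeff_map, finsetSum_coeff]
  simp only [coeff_C_mul, coeff_X_pow, mul_ite, mul_one, mul_zero]
  rw [Finset.sum_ite_eq]
  by_cases hk : k ∈ Finset.range ((p l0).natDegree + 1)
  · rw [if_pos hk]
    exact hq k l hl
  · rw [if_neg hk, map_zero]
    refine (hq k l hl).trans ?_
    have h1 : (p l0).coeff k = 0 := by
      apply coeff_eq_zero_of_natDegree_lt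
      rw [Finset.mem_range] at hk
      omega
    have h2 : (p l0).coeff k = algebraMap ℚ (K l0) (q k) := hq k l0 hl0
    rw [h1] at h2
    have h3 : q k = 0 := by
      apply (algebraMap ℚ (K l0)).injective
      rw [← h2, map_zero]
    rw [h3, map_zero]

end Rat

section Newton

variable {K : Type} [Field K] {V : Type} [AddCommGroup V] [Module K V] [FiniteDimensional K V]

theorem rev_eq (f : Module.End K V) :
    revPoly f = (LinearMap.toMatrix (Module.finBasis K V) (Module.finBasis K V) f).charpolyRev := by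
  unfold revPoly
  rw [← Matrix.reverse_charpoly, LinearMap.charpoly_toMatrix]

theorem rev_newton (f : Module.End K V) (k : ℕ) :
    (revPoly f).coeff (k + 1) * ((k : K) + 1) =
      - ∑ p ∈ Finset.HasAntidiagonal.antidiagonal k,
        (revPoly f).coeff p.1 * LinearMap.trace K V (f ^ (p.2 + 1)) := by
  rw [rev_eq, Pool.Agent.TH658.Eq.newton]
  congr 1
  refine Finset.sum_congr rfl fun p _ => ?_
  rw [LinearMap.trace_eq_matrix_trace K (Module.finBasis K V), LinearMap.toMatrix_pow]

theorem rev_zero (f : Module.End K V) : (revPoly f).coeff 0 = 1 := by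
  rw [rev_eq, coeff_zero_eq_eval_zero, Matrix.eval_charpolyRev]

end Newton

section RatRev

variable {Λ : Type} {K : Λ → Type} [∀ l, Field (K l)] [∀ l, CharZero (K l)] {S : Set Λ}
  {V : Λ → Type} [∀ l, AddCommGroup (V l)] [∀ l, Module (K l) (V l)]
  [∀ l, FiniteDimensional (K l) (V l)]

/-- the polynomials `det (1 - T f)` are rational and independent of `l` iff the traces of the
powers are -/
theorem rev_iff (f : ∀ l, Module.End (K l) (V l)) :
    (∀ k, RatOn S (fun l => (revPoly (f l)).coeff k)) ↔
      ∀ n, RatOn S (fun l => LinearMap.trace (K l) (V l) (f l ^ (n + 1))) := by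
  constructor
  · intro h n
    induction n using Nat.strong_induction_on with
    | _ n ih =>
      have h1 : RatOn S (fun l => -((revPoly (f l)).coeff (n + 1) * ((n : K l) + 1)) +
          -(∑ p ∈ (Finset.HasAntidiagonal.antidiagonal n).erase (0, n),
            (revPoly (f l)).coeff p.1 * LinearMap.trace (K l) (V l) (f l ^ (p.2 + 1)))) := by
        refine RatOn.add (((h (n + 1)).mul (RatOn.add (ratOn_natCast n) ?_)).neg)
          (RatOn.neg (RatOn.sum _ fun p hp => (h p.1).mul (ih p.2 ?_)))
        · exact (ratOn_natCast 1).congr fun l _ => by rw [Nat.cast_one]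
        · have h2 := Finset.mem_erase.1 hp
          have h3 := Finset.HasAntidiagonal.mem_antidiagonal.1 h2.2
          have h4 : p.1 ≠ 0 := by
            intro h5
            apply h2.1
            have : p.2 = n := by omega
            exact Prod.ext h5 this
          omega
      refine h1.congr fun l _ => ?_
      have h4 : ((0, n) : ℕ × ℕ) ∈ Finset.HasAntidiagonal.antidiagonal n :=
        Finset.HasAntidiagonal.mem_antidiagonal.mpr (zero_add n)
      rw [rev_newton, ← Finset.add_sum_erase _ _ h4, rev_zero]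
      ring
  · intro h k
    induction k using Nat.strong_induction_on with
    | _ k ih =>
      rcases k with _ | k
      · exact (ratOn_natCast 1).congr fun l _ => by rw [rev_zero, Nat.cast_one]
      · have h1 : RatOn S (fun l => algebraMap ℚ (K l) ((k : ℚ) + 1) *
            (revPoly (f l)).coeff (k + 1)) := by
          have h2 : RatOn S (fun l => -(∑ p ∈ Finset.HasAntidiagonal.antidiagonal k,
              (revPoly (f l)).coeff p.1 * LinearMap.trace (K l) (V l) (f l ^ (p.2 + 1)))) := by
            refine RatOn.neg (RatOn.sum _ fun p hp => (ih p.1 ?_).mul (h p.2))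
            have h3 := Finset.HasAntidiagonal.mem_antidiagonal.1 hp
            omega
          refine h2.congr fun l _ => ?_
          rw [← rev_newton, map_add, map_natCast, map_one, mul_comm]
        refine h1.of_mul ?_
        positivity

end RatRev

section Averaging

variable {W : Type} [Group W] {K : Type} [Field K] {U : Type} [AddCommGroup U] [Module K U]

/-- the quotient of `I` by `J` -/
abbrev Quo (I J : Subgroup W) : Type := ↥I ⧸ (J.subgroupOf I)

theorem out_eq {I J : Subgroup W} (a : I) :
    ∃ j ∈ J, ((Quotient.out (QuotientGroup.mk a : Quo I J) : I) : W) = a * j := by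
  obtain ⟨h, hh⟩ := QuotientGroup.mk_out_eq_mul (J.subgroupOf I) a
  refine ⟨((h : I) : W), Subgroup.mem_subgroupOf.1 h.2, ?_⟩
  rw [hh]
  rfl

theorem trace_actI [CharZero K] [FiniteDimensional K U] (I J : Subgroup W) [I.Normal]
    [Fintype (Quo I J)] (ρ : W →* Module.End K U) (hJ : ∀ g ∈ J, ρ g = 1) (w : W) :
    LinearMap.trace K _ (actI I ρ w) = (Fintype.card (Quo I J) : K)⁻¹ *
      ∑ c : Quo I J, LinearMap.trace K U (ρ (w * ((Quotient.out c : I) : W))) := by
  have hout : ∀ a : I, ρ ((Quotient.out (QuotientGroup.mk a : Quo I J) : I) : W) = ρ (a : W) := by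
    intro a
    obtain ⟨j, hj, hj'⟩ := out_eq (J := J) a
    rw [hj', map_mul, hJ j hj, mul_one]
  have hcard : (Fintype.card (Quo I J) : K) ≠ 0 := by
    have : Nonempty (Quo I J) := ⟨QuotientGroup.mk 1⟩
    exact_mod_cast Fintype.card_ne_zero
  set e : Module.End K U := (Fintype.card (Quo I J) : K)⁻¹ •
    ∑ c : Quo I J, ρ ((Quotient.out c : I) : W) with he
  have h1 : ∀ g ∈ I, ρ g * e = e := by
    intro g hg
    rw [he, mul_smul_comm, Finset.mul_sum]
    congr 1
    rw [← Equiv.sum_comp (MulAction.toPerm (⟨g, hg⟩ : I))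
      (fun c : Quo I J => ρ ((Quotient.out c : I) : W))]
    refine Finset.sum_congr rfl fun c _ => ?_
    have h2 : (MulAction.toPerm (⟨g, hg⟩ : I) c : Quo I J) =
        QuotientGroup.mk ((⟨g, hg⟩ : I) * Quotient.out c) := by
      conv_lhs => rw [← QuotientGroup.out_eq' c]
      rfl
    rw [h2, hout, ← map_mul]
    rfl
  have h2 : ∀ x ∈ invI I ρ, e x = x := by
    intro x hx
    rw [he, LinearMap.smul_apply, LinearMap.sum_apply]
    have h3 : ∀ c ∈ (Finset.univ : Finset (Quo I J)), ρ ((Quotient.out c : I) : W) x = x :=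
      fun c _ => hx _ (Quotient.out c).2
    rw [Finset.sum_congr rfl h3, Finset.sum_const, Finset.card_univ, ← Nat.cast_smul_eq_nsmul K,
      smul_smul, inv_mul_cancel₀ hcard, one_smul]
  have h3 : ∀ x, e x ∈ invI I ρ := by
    intro x g hg
    exact LinearMap.congr_fun (h1 g hg) x
  have h4 : ∀ x, (ρ w * e) x ∈ invI I ρ := fun x => invI_maps I ρ w _ (h3 x)
  have h5 := LinearMap.trace_restrict_eq_of_forall_mem (invI I ρ) (ρ w * e) h4
  have h6 : (ρ w * e).restrict (fun x _ => h4 x) = actI I ρ w := by
    refine LinearMap.ext fun x => Subtype.ext ?_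
    change ρ w (e x) = ρ w x
    rw [h2 x x.2]
  rw [h6] at h5
  rw [h5, he, mul_smul_comm, map_smul, smul_eq_mul, Finset.mul_sum, map_sum]
  congr 1
  refine Finset.sum_congr rfl fun c _ => ?_
  rw [map_mul ρ]

/-- the trace of a monomial endomorphism of the `U`-valued functions on a finite set -/
theorem trace_fun [FiniteDimensional K U] {X : Type} [Fintype X] [DecidableEq X] (σ : X → X)
    (g : Module.End K U) (T : Module.End K (X → U)) (hT : ∀ F x, T F x = g (F (σ x))) :
    LinearMap.trace K _ T = ∑ x : X, if σ x = x then LinearMap.trace K U g else 0 := by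
  classical
  let b := Module.finBasis K U
  rw [LinearMap.trace_eq_matrix_trace K (Pi.basis fun _ : X => b)]
  unfold Matrix.trace
  rw [Fintype.sum_sigma]
  refine Finset.sum_congr rfl fun x _ => ?_
  have h1 : ∀ i, Matrix.diag (LinearMap.toMatrix (Pi.basis fun _ : X => b)
      (Pi.basis fun _ : X => b) T) ⟨x, i⟩ = if σ x = x then b.repr (g (b i)) i else 0 := by
    intro i
    rw [Matrix.diag_apply, LinearMap.toMatrix_apply, Pi.basis_repr, Pi.basis_apply, hT]
    by_cases h : σ x = x
    · rw [h, Pi.single_eq_same, if_pos rfl]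
    · rw [Pi.single_eq_of_ne h, if_neg h, map_zero, map_zero]
      rfl
  rw [Finset.sum_congr rfl fun i _ => h1 i]
  by_cases h : σ x = x
  · rw [if_pos h, LinearMap.trace_eq_matrix_trace K b]
    refine Finset.sum_congr rfl fun i _ => ?_
    rw [if_pos h, Matrix.diag_apply, LinearMap.toMatrix_apply]
  · rw [if_neg h]
    refine Finset.sum_eq_zero fun i _ => ?_
    rw [if_neg h]

end Averaging

end Pool.Agent.Y116.WD
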